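import Pool.Agent.H12.DB1
import Pool.Agent.H12.DB2

set_option autoImplicit false

namespace Pool.Agent.Results.MP_06b6d5_co.Doob

/-- distance-regular: connected, and the numbers of neighbours of `v` one step closer to and one
step farther from `u` depend only on the distance from `u` to `v` -/
def IsDRG {V : Type} (G : SimpleGraph V) : Prop :=
  G.Connected ∧ ∃ b c : ℕ → ℕ, ∀ u v : V,
    Set.ncard {w | G.Adj v w ∧ G.dist u w + 1 = G.dist u v} = c (G.dist u v) ∧
    Set.ncard {w | G.Adj v w ∧ G.dist u w = G.dist u v + 1} = b (G.dist u v)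

/-- a core: every endomorphism is an automorphism -/
def IsCore {V : Type} (G : SimpleGraph V) : Prop :=
  ∀ f : G →g G, ∃ e : G ≃g G, ∀ v, e v = f v

/-- the subgraph induced on `S` is a core of `G`: it is a core and `G` maps to it -/
def IsCoreOf {V : Type} (G : SimpleGraph V) (S : Set V) : Prop :=
  IsCore (G.induce S) ∧ Nonempty (G →g G.induce S)

open Pool.Agent.H12.DB

lemma drg : IsDRG G := by
  refine ⟨?_, bb, id, ?_⟩
  · refine SimpleGraph.Connected.mk ?_
    intro u v
    obtain ⟨p, _⟩ := walk_ex v _ u rfl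
    exact p.reachable
  · intro u v
    simp only [dist_eq]
    rw [ncard_eq v (fun w => d (w - u) + 1 = d (v - u)),
      ncard_eq v (fun w => d (w - u) = d (v - u) + 1)]
    have e : ∀ s, v + s - u = v - u + s := fun s => by abel
    simp only [e]
    exact ⟨count_c _, count_b _⟩

lemma not_iso (S : Set A) (h : IsCore (G.induce S)) : ¬ Nonempty (G ≃g G.induce S) := by
  rintro ⟨e⟩
  obtain ⟨a, ha⟩ := h (e.toHom.comp (fold.comp e.symm.toHom))
  have h1 : a (e ((1, 0), 0)) = e (fold (e.symm (e ((1, 0), 0)))) := ha _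
  have h2 : a (e (0, (1, 0))) = e (fold (e.symm (e (0, (1, 0))))) := ha _
  have e1 : fold ((1, 0), 0) = fold (0, (1, 0)) := by decide
  rw [RelIso.symm_apply_apply] at h1 h2
  rw [e1, ← h2] at h1
  have := e.injective (a.injective h1)
  exact absurd this (by decide)

/-- There is a finite distance-regular graph that has a core, and whose core is neither
isomorphic to the graph nor complete. -/
theorem result :
    ∃ (V : Type) (_ : Fintype V) (X : SimpleGraph V), IsDRG X ∧ (∃ S, IsCoreOf X S) ∧
      ∀ S, IsCoreOf X S → ¬ Nonempty (X ≃g X.induce S) ∧ X.induce S ≠ ⊤ := by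
  refine ⟨A, inferInstance, G, drg, core_ex G, ?_⟩
  rintro S ⟨h1, ⟨f⟩⟩
  exact ⟨not_iso S h1, not_top S f⟩

end Pool.Agent.Results.MP_06b6d5_co.Doob
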